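import Mathlib

/-!
The infinitary logic `L_{∞,∞}` over a signature, and the local criterion for homomorphisms to
finite structures.
-/

namespace Q309.Inf

open FirstOrder

universe u

/-- Formulas of `L_{∞,∞}` with free variables in `V`: conjunctions and disjunctions over arbitrary
sets and quantification over arbitrary sets `W` of variables. -/
inductive Fml (L : FirstOrder.Language.{0, 0}) : Type → Type 1
  | eq {V : Type} (s t : L.Term V) : Fml L V
  | rel {V : Type} {n : ℕ} (R : L.Relations n) (t : Fin n → L.Term V) : Fml L V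
  | neg {V : Type} (φ : Fml L V) : Fml L V
  | conj {V : Type} (I : Type) (φ : I → Fml L V) : Fml L V
  | disj {V : Type} (I : Type) (φ : I → Fml L V) : Fml L V
  | all {V : Type} (W : Type) (φ : Fml L (V ⊕ W)) : Fml L V
  | ex {V : Type} (W : Type) (φ : Fml L (V ⊕ W)) : Fml L V

variable {L : FirstOrder.Language.{0, 0}} {M : Type u} [L.Structure M]

/-- Satisfaction. -/
def Fml.Sat (M : Type u) [L.Structure M] : {V : Type} → Fml L V → (V → M) → Prop
  | _, .eq s t, v => s.realize v = t.realize v
  | _, .rel R t, v => FirstOrder.Language.Structure.RelMap R (fun i => (t i).realize v)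
  | _, .neg φ, v => ¬ φ.Sat M v
  | _, .conj _ φ, v => ∀ i, (φ i).Sat M v
  | _, .disj _ φ, v => ∃ i, (φ i).Sat M v
  | _, .all W φ, v => ∀ w : W → M, φ.Sat M (Sum.elim v w)
  | _, .ex W φ, v => ∃ w : W → M, φ.Sat M (Sum.elim v w)

/-- The formula belongs to `L_{ω₁,ω}`: only countable conjunctions and disjunctions, and only
finite blocks of quantifiers. -/
def Fml.IsCountable : {V : Type} → Fml L V → Prop
  | _, .eq _ _ => True
  | _, .rel _ _ => True
  | _, .neg φ => φ.IsCountable
  | _, .conj I φ => Countable I ∧ ∀ i, (φ i).IsCountable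
  | _, .disj I φ => Countable I ∧ ∀ i, (φ i).IsCountable
  | _, .all W φ => Finite W ∧ φ.IsCountable
  | _, .ex W φ => Finite W ∧ φ.IsCountable

/-- A sentence of `L_{∞,∞}`. -/
abbrev Sentence (L : FirstOrder.Language.{0, 0}) := Fml L Empty

/-- `M` is a model of the sentence. -/
def Models (M : Type u) [L.Structure M] (φ : Sentence L) : Prop := φ.Sat M Empty.elim

/-- binary conjunction -/
def Fml.and {V : Type} (φ ψ : Fml L V) : Fml L V := .conj Bool (fun b => if b then φ else ψ)

theorem Fml.sat_and {V : Type} (φ ψ : Fml L V) (v : V → M) :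
    (φ.and ψ).Sat M v ↔ φ.Sat M v ∧ ψ.Sat M v := by
  simp only [Fml.and, Fml.Sat, Bool.forall_bool]
  simp [and_comm]

theorem Fml.and_isCountable {V : Type} {φ ψ : Fml L V} (h1 : φ.IsCountable)
    (h2 : ψ.IsCountable) : (φ.and ψ).IsCountable := by
  refine ⟨inferInstance, fun b => ?_⟩
  cases b
  · exact h2
  · exact h1

/-- Compactness: a partial assignment problem with values in a finite set is solvable as soon as
it is solvable on every finite tuple. -/
theorem local_to_global {B P : Type} {n : ℕ} (op : B → M → M → M)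
    (opF : B → Fin n → Fin n → Fin n) (c : P → M) (cF : P → Fin n)
    (h : ∀ (k : ℕ) (x : Fin k → M), ∃ f : Fin k → Fin n,
      (∀ b i j l, op b (x i) (x j) = x l → opF b (f i) (f j) = f l) ∧
      (∀ p i, x i = c p → f i = cF p)) :
    ∃ φ : M → Fin n, (∀ b x y, φ (op b x y) = opF b (φ x) (φ y)) ∧ ∀ p, φ (c p) = cF p := by
  classical
  let K : Finset M → Set (M → Fin n) := fun s =>
    {φ | (∀ b, ∀ x ∈ s, ∀ y ∈ s, ∀ z ∈ s, op b x y = z → opF b (φ x) (φ y) = φ z) ∧
      ∀ p, c p ∈ s → φ (c p) = cF p}
  have hne : ∀ s, (K s).Nonempty := by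
    intro s
    obtain ⟨f, h1, h2⟩ := h s.card (fun i => (s.equivFin.symm i).1)
    -- values outside `s` do not matter, but we need an element of `Fin n`
    by_cases hs : s.Nonempty
    · obtain ⟨x0, hx0⟩ := hs
      refine ⟨fun x => if hx : x ∈ s then f (s.equivFin ⟨x, hx⟩) else
        f (s.equivFin ⟨x0, hx0⟩), ?_, ?_⟩
      · intro b x hx y hy z hz hxy
        simp only [dif_pos hx, dif_pos hy, dif_pos hz]
        apply h1 b
        simpa using hxy
      · intro p hp
        simp only [dif_pos hp]
        exact h2 p _ (by simp)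
    · -- `s` is empty; we still need some function
      have hs' : s = ∅ := Finset.not_nonempty_iff_eq_empty.1 hs
      subst hs'
      by_cases hM : Nonempty M
      · obtain ⟨m⟩ := hM
        obtain ⟨g, -, -⟩ := h 1 (fun _ => m)
        exact ⟨fun _ => g 0, fun b x hx => absurd hx (by simp), fun p hp => absurd hp (by simp)⟩
      · exact ⟨fun x => absurd ⟨x⟩ hM, fun b x hx => absurd hx (by simp),
          fun p hp => absurd hp (by simp)⟩
  have hclosed : ∀ s, IsClosed (K s) := by
    intro s
    have : K s = (⋂ b, ⋂ x ∈ s, ⋂ y ∈ s, ⋂ z ∈ s, ⋂ (_ : op b x y = z),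
        {φ : M → Fin n | opF b (φ x) (φ y) = φ z}) ∩
        ⋂ p, ⋂ (_ : c p ∈ s), {φ : M → Fin n | φ (c p) = cF p} := by
      ext φ
      simp only [K, Set.mem_ofPred_eq, Set.mem_inter_iff, Set.mem_iInter]
    rw [this]
    refine IsClosed.inter ?_ ?_
    · refine isClosed_iInter fun b => isClosed_iInter fun x => isClosed_iInter fun _ =>
        isClosed_iInter fun y => isClosed_iInter fun _ => isClosed_iInter fun z =>
        isClosed_iInter fun _ => isClosed_iInter fun _ => ?_
      have h1 : Continuous (fun φ : M → Fin n => (φ x, φ y)) :=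
        (continuous_apply x).prodMk (continuous_apply y)
      have h2 : Continuous (fun q : Fin n × Fin n => opF b q.1 q.2) :=
        continuous_of_discreteTopology
      exact isClosed_eq (h2.comp h1) (continuous_apply z)
    · refine isClosed_iInter fun p => isClosed_iInter fun _ => ?_
      exact isClosed_eq (continuous_apply _) continuous_const
  have hdir : Directed (fun x1 x2 => x1 ⊇ x2) K := by
    intro s t
    refine ⟨s ∪ t, ?_, ?_⟩
    · rintro φ ⟨h1, h2⟩
      exact ⟨fun b x hx y hy z hz => h1 b x (Finset.mem_union_left _ hx) y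
        (Finset.mem_union_left _ hy) z (Finset.mem_union_left _ hz),
        fun p hp => h2 p (Finset.mem_union_left _ hp)⟩
    · rintro φ ⟨h1, h2⟩
      exact ⟨fun b x hx y hy z hz => h1 b x (Finset.mem_union_right _ hx) y
        (Finset.mem_union_right _ hy) z (Finset.mem_union_right _ hz),
        fun p hp => h2 p (Finset.mem_union_right _ hp)⟩
  obtain ⟨φ, hφ⟩ := IsCompact.nonempty_iInter_of_directed_nonempty_isCompact_isClosed K hdir hne
    (fun s => (hclosed s).isCompact) hclosed
  rw [Set.mem_iInter] at hφ
  refine ⟨φ, fun b x y => ?_, fun p => ?_⟩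
  · have := (hφ {x, y, op b x y}).1 b x (by simp) y (by simp) (op b x y) (by simp) rfl
    exact this.symm
  · exact (hφ {c p}).2 p (by simp)

theorem global_to_local {B P : Type} {n : ℕ} (op : B → M → M → M)
    (opF : B → Fin n → Fin n → Fin n) (c : P → M) (cF : P → Fin n)
    (h : ∃ φ : M → Fin n, (∀ b x y, φ (op b x y) = opF b (φ x) (φ y)) ∧ ∀ p, φ (c p) = cF p)
    (k : ℕ) (x : Fin k → M) : ∃ f : Fin k → Fin n,
      (∀ b i j l, op b (x i) (x j) = x l → opF b (f i) (f j) = f l) ∧
      (∀ p i, x i = c p → f i = cF p) := by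
  obtain ⟨φ, h1, h2⟩ := h
  refine ⟨fun i => φ (x i), fun b i j l hx => ?_, fun p i hx => ?_⟩
  · rw [← h1, hx]
  · show φ (x i) = cF p
    rw [hx, h2]

/-- The formula saying that a map with given values at the points `c p` preserves the binary
operations `op b` and takes values in the finite structure `(Fin n, opF)`. -/
def homFml {V B P : Type} {n : ℕ} (op : B → L.Functions 2) (opF : B → Fin n → Fin n → Fin n)
    (c : P → L.Term V) (cF : P → Fin n) : Fml L V :=
  .conj ℕ fun k => .all (Fin k) <| .disj (Fin k → Fin n) fun f =>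
    Fml.and
      (.conj {q : B × Fin k × Fin k × Fin k // opF q.1 (f q.2.1) (f q.2.2.1) ≠ f q.2.2.2} fun q =>
        .neg (.eq ((op q.1.1).apply₂ (.var (.inr q.1.2.1)) (.var (.inr q.1.2.2.1)))
          (.var (.inr q.1.2.2.2))))
      (.conj {q : P × Fin k // f q.2 ≠ cF q.1} fun q =>
        .neg (.eq (.var (.inr q.1.2)) ((c q.1.1).relabel Sum.inl)))

theorem homFml_isCountable {V B P : Type} [Countable B] [Countable P] {n : ℕ}
    (op : B → L.Functions 2) (opF : B → Fin n → Fin n → Fin n)
    (c : P → L.Term V) (cF : P → Fin n) : (homFml op opF c cF).IsCountable := by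
  refine ⟨inferInstance, fun k => ⟨inferInstance, inferInstance, fun f =>
    Fml.and_isCountable ⟨inferInstance, fun q => trivial⟩ ⟨inferInstance, fun q => trivial⟩⟩⟩

theorem sat_homFml {V B P : Type} {n : ℕ} (op : B → L.Functions 2)
    (opF : B → Fin n → Fin n → Fin n) (c : P → L.Term V) (cF : P → Fin n) (v : V → M) :
    (homFml op opF c cF).Sat M v ↔
      ∃ φ : M → Fin n, (∀ b x y, φ (FirstOrder.Language.Structure.funMap (op b) ![x, y]) =
        opF b (φ x) (φ y)) ∧ ∀ p, φ ((c p).realize v) = cF p := by
  constructor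
  · intro h
    apply local_to_global (fun b x y => FirstOrder.Language.Structure.funMap (op b) ![x, y]) opF
      (fun p => (c p).realize v) cF
    intro k x
    obtain ⟨f, hf⟩ := h k x
    rw [Fml.sat_and] at hf
    obtain ⟨h1, h2⟩ := hf
    refine ⟨f, fun b i j l hx => ?_, fun p i hx => ?_⟩
    · by_contra hcon
      refine h1 ⟨(b, i, j, l), hcon⟩ ?_
      show ((op b).apply₂ _ _).realize _ = _
      rw [FirstOrder.Language.Term.realize_functions_apply₂]
      exact hx
    · by_contra hcon
      refine h2 ⟨(p, i), hcon⟩ ?_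
      show _ = ((c p).relabel Sum.inl).realize _
      rw [FirstOrder.Language.Term.realize_relabel]
      exact hx
  · intro h k x
    obtain ⟨f, h1, h2⟩ := global_to_local _ opF (fun p => (c p).realize v) cF h k x
    refine ⟨f, ?_⟩
    rw [Fml.sat_and]
    constructor
    · rintro ⟨⟨b, i, j, l⟩, hq⟩ heq
      apply hq
      apply h1 b i j l
      have : ((op b).apply₂ (FirstOrder.Language.Term.var (Sum.inr i))
        (FirstOrder.Language.Term.var (Sum.inr j))).realize (Sum.elim v x) = x l := heq
      rw [FirstOrder.Language.Term.realize_functions_apply₂] at this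
      exact this
    · rintro ⟨⟨p, i⟩, hq⟩ heq
      apply hq
      apply h2 p i
      have : x i = ((c p).relabel Sum.inl).realize (Sum.elim v x) := heq
      rw [FirstOrder.Language.Term.realize_relabel] at this
      exact this

end Q309.Inf
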