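import Mathlib
import Pool.Agent.Q309.Inf.Logic

/-!
Residual finiteness of groups in infinitary logic.
-/

namespace Q309.Inf

open FirstOrder

universe u

/-- The function symbols of the signature `{·, ⁻¹, 1}`. -/
inductive GroupSym : ℕ → Type
  | mul : GroupSym 2
  | inv : GroupSym 1
  | one : GroupSym 0

/-- The signature `{·, ⁻¹, 1}` of groups. -/
def groupSig : FirstOrder.Language.{0, 0} := ⟨GroupSym, fun _ => Empty⟩

/-- `M` with its operations is a residually finite group. -/
def IsResiduallyFiniteGroup (M : Type u) [groupSig.Structure M] : Prop :=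
  ∃ _ : Group M,
    (∀ x y : M, FirstOrder.Language.Structure.funMap (L := groupSig) GroupSym.mul ![x, y] = x * y) ∧
    (∀ x : M, FirstOrder.Language.Structure.funMap (L := groupSig) GroupSym.inv ![x] = x⁻¹) ∧
    FirstOrder.Language.Structure.funMap (L := groupSig) (M := M) GroupSym.one ![] = 1 ∧
    ∀ g : M, g ≠ 1 → ∃ N : Subgroup M, N.Normal ∧ N.FiniteIndex ∧ g ∉ N

/-- the term `s * t` -/
def gtMul {V : Type} (s t : groupSig.Term V) : groupSig.Term V :=
  FirstOrder.Language.Functions.apply₂ (L := groupSig) GroupSym.mul s t
/-- the term `t⁻¹` -/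
def gtInv {V : Type} (t : groupSig.Term V) : groupSig.Term V :=
  FirstOrder.Language.Functions.apply₁ (L := groupSig) GroupSym.inv t
/-- the term `1` -/
def gtOne {V : Type} : groupSig.Term V :=
  FirstOrder.Language.Constants.term (L := groupSig) GroupSym.one

/-- multiplication of a structure -/
def gMul {M : Type u} [groupSig.Structure M] (x y : M) : M :=
  FirstOrder.Language.Structure.funMap (L := groupSig) GroupSym.mul ![x, y]
/-- inversion of a structure -/
def gInv {M : Type u} [groupSig.Structure M] (x : M) : M :=
  FirstOrder.Language.Structure.funMap (L := groupSig) GroupSym.inv ![x]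
/-- unit of a structure -/
def gOne (M : Type u) [groupSig.Structure M] : M :=
  FirstOrder.Language.Structure.funMap (L := groupSig) GroupSym.one ![]

section
variable {M : Type u} [groupSig.Structure M] {V : Type} (v : V → M)

theorem realize_gtMul (s t : groupSig.Term V) :
    (gtMul s t).realize v = gMul (s.realize v) (t.realize v) :=
  FirstOrder.Language.Term.realize_functions_apply₂
theorem realize_gtInv (t : groupSig.Term V) :
    (gtInv t).realize v = gInv (t.realize v) :=
  FirstOrder.Language.Term.realize_functions_apply₁
theorem realize_gtOne : (gtOne : groupSig.Term V).realize v = gOne M := by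
  show FirstOrder.Language.Structure.funMap (L := groupSig) GroupSym.one _ =
    FirstOrder.Language.Structure.funMap (L := groupSig) GroupSym.one _
  congr 1
  funext i
  exact i.elim0
end

/-- universally quantified variables -/
def g3 (i : Fin 3) : groupSig.Term (Empty ⊕ Fin 3) := .var (.inr i)

/-- `∀ x y z, s = t` -/
def gax (s t : groupSig.Term (Empty ⊕ Fin 3)) : Sentence groupSig := .all (Fin 3) (.eq s t)

/-- The group axioms. -/
def groupAxioms : Fin 3 → Sentence groupSig := ![
  gax (gtMul (gtMul (g3 0) (g3 1)) (g3 2)) (gtMul (g3 0) (gtMul (g3 1) (g3 2))),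
  gax (gtMul gtOne (g3 0)) (g3 0),
  gax (gtMul (gtInv (g3 0)) (g3 0)) gtOne]

/-- The data of a finite structure with one operation and two distinct points. -/
def GFinData : Type :=
  Σ n : ℕ, {q : (Unit → Fin n → Fin n → Fin n) × (Bool → Fin n) // q.2 true ≠ q.2 false}

instance : Countable GFinData := by unfold GFinData; infer_instance

/-- the binary operation -/
def groupOps (_ : Unit) : groupSig.Functions 2 := GroupSym.mul

/-- the point `g` and the point `1` -/
def groupPts (b : Bool) : groupSig.Term (Empty ⊕ Unit) := if b then .var (.inr ()) else gtOne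

/-- `∀ g, g = 1 ∨ ⋁_F (some map to the finite structure F separates g from 1)` -/
def grfPart : Sentence groupSig :=
  .all Unit (.disj (Option GFinData) fun o => match o with
    | none => .eq (.var (.inr ())) gtOne
    | some F => homFml groupOps F.2.1.1 groupPts F.2.1.2)

/-- The sentence axiomatizing residually finite groups. -/
def groupSentence : Sentence groupSig := (Fml.conj (Fin 3) groupAxioms).and grfPart

theorem groupSentence_isCountable : groupSentence.IsCountable := by
  refine Fml.and_isCountable ⟨inferInstance, fun i => ?_⟩ ⟨inferInstance, inferInstance, ?_⟩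
  · fin_cases i <;> exact ⟨inferInstance, trivial⟩
  · rintro (_ | F)
    · exact trivial
    · exact homFml_isCountable _ _ _ _

section
variable {M : Type u} [groupSig.Structure M]

theorem sat_gax (s t : groupSig.Term (Empty ⊕ Fin 3)) :
    (gax s t).Sat M Empty.elim ↔ ∀ w : Fin 3 → M,
      s.realize (Sum.elim Empty.elim w) = t.realize (Sum.elim Empty.elim w) := Iff.rfl

theorem realize_g3 (i : Fin 3) (w : Fin 3 → M) :
    (g3 i).realize (Sum.elim Empty.elim w) = w i := rfl

theorem sat_grfPart : grfPart.Sat M Empty.elim ↔ ∀ a : M, a = gOne M ∨ ∃ F : GFinData,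
    ∃ φ : M → Fin F.1, (∀ x y, φ (gMul x y) = F.2.1.1 () (φ x) (φ y)) ∧ φ a = F.2.1.2 true ∧
      φ (gOne M) = F.2.1.2 false := by
  constructor
  · intro h a
    obtain ⟨o, ho⟩ := h (fun _ => a)
    cases o with
    | none =>
      left
      have : a = (gtOne : groupSig.Term (Empty ⊕ Unit)).realize
        (Sum.elim Empty.elim (fun _ => a)) := ho
      rwa [realize_gtOne] at this
    | some F =>
      right
      refine ⟨F, ?_⟩
      have h1 := (sat_homFml (M := M) groupOps F.2.1.1 groupPts F.2.1.2
        (Sum.elim Empty.elim (fun _ => a))).1 ho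
      obtain ⟨φ, h2, h3⟩ := h1
      refine ⟨φ, fun x y => h2 () x y, h3 true, ?_⟩
      have h4 := h3 false
      have h5 : (groupPts false).realize (Sum.elim Empty.elim (fun _ => a)) = gOne M :=
        realize_gtOne _
      rwa [h5] at h4
  · intro h w
    rcases h (w ()) with h1 | ⟨F, φ, h1, h3, h4⟩
    · refine ⟨none, ?_⟩
      show w () = (gtOne : groupSig.Term (Empty ⊕ Unit)).realize _
      rw [realize_gtOne]
      exact h1
    · refine ⟨some F, ?_⟩
      refine (sat_homFml (M := M) groupOps F.2.1.1 groupPts F.2.1.2
        (Sum.elim Empty.elim w)).2 ⟨φ, ?_, ?_⟩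
      · intro b x y
        exact h1 x y
      · intro p
        cases p
        · have h5 : (groupPts false).realize (Sum.elim Empty.elim w) = gOne M :=
            realize_gtOne _
          rw [h5]
          exact h4
        · exact h3

/-- The sentence axiomatizes the residually finite groups. -/
theorem models_groupSentence : Models M groupSentence ↔ IsResiduallyFiniteGroup M := by
  unfold Models groupSentence
  rw [Fml.sat_and, sat_grfPart]
  constructor
  · rintro ⟨hax, hrf⟩
    have h0 := (sat_gax _ _).1 (hax 0)
    have h1 := (sat_gax _ _).1 (hax 1)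
    have h2 := (sat_gax _ _).1 (hax 2)
    simp only [realize_gtMul, realize_gtInv, realize_gtOne, realize_g3] at h0 h1 h2
    have a0 : ∀ x y z : M, gMul (gMul x y) z = gMul x (gMul y z) := fun x y z => h0 ![x, y, z]
    have a1 : ∀ x : M, gMul (gOne M) x = x := fun x => h1 ![x, x, x]
    have a2 : ∀ x : M, gMul (gInv x) x = gOne M := fun x => h2 ![x, x, x]
    let i1 : Mul M := ⟨gMul⟩
    let i2 : One M := ⟨gOne M⟩
    let i3 : Inv M := ⟨gInv⟩
    let iG : Group M := Group.ofLeftAxioms a0 a1 a2
    refine ⟨iG, fun x y => rfl, fun x => rfl, rfl, ?_⟩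
    intro a ha
    rcases hrf a with h | ⟨F, φ, k1, g3, g4⟩
    · exact absurd h ha
    · have k1 : ∀ x y : M, φ (x * y) = F.2.1.1 () (φ x) (φ y) := k1
      have k4 : φ (1 : M) = F.2.1.2 false := g4
      have kmul : ∀ x y x' y' : M, φ x = φ x' → φ y = φ y' → φ (x * y) = φ (x' * y') := by
        intro x y x' y' e1 e2
        rw [k1, k1, e1, e2]
      let N : Subgroup M :=
        { carrier := {x | φ x = φ 1}
          mul_mem' := by
            intro x y hx hy
            show φ (x * y) = φ 1
            rw [kmul x y 1 1 hx hy, mul_one]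
          one_mem' := rfl
          inv_mem' := by
            intro x hx
            show φ (x⁻¹) = φ 1
            have e : φ (1 * x⁻¹) = φ (x * x⁻¹) := kmul 1 (x⁻¹) x (x⁻¹) (Eq.symm hx) rfl
            rwa [one_mul, mul_inv_cancel] at e }
      refine ⟨N, ?_, ?_, ?_⟩
      · constructor
        intro n hn g
        show φ (g * n * g⁻¹) = φ 1
        have hn' : φ n = φ 1 := hn
        rw [kmul (g * n) (g⁻¹) (g * 1) (g⁻¹) (kmul g n g 1 rfl hn') rfl, mul_one,
          mul_inv_cancel]
      · have hinj : Function.Injective (fun q : M ⧸ N => φ q.out) := by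
          intro q q' h
          have h' : φ q.out = φ q'.out := h
          rw [← QuotientGroup.out_eq' q, ← QuotientGroup.out_eq' q']
          rw [QuotientGroup.eq]
          show φ ((q.out)⁻¹ * q'.out) = φ 1
          rw [← kmul ((q.out)⁻¹) q.out ((q.out)⁻¹) q'.out rfl h', inv_mul_cancel]
        have : Finite (M ⧸ N) := Finite.of_injective _ hinj
        exact Subgroup.finiteIndex_of_finite_quotient
      · intro haN
        have : φ a = φ 1 := haN
        rw [g3, k4] at this
        exact F.2.2 this
  · rintro ⟨iG, e1, e2, e3, hrf⟩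
    have b1 : ∀ x y : M, gMul x y = x * y := e1
    have b2 : ∀ x : M, gInv x = x⁻¹ := e2
    have b3 : gOne M = 1 := e3
    constructor
    · intro i
      fin_cases i
      all_goals
        refine (sat_gax _ _).2 fun w => ?_
        simp only [realize_gtMul, realize_gtInv, realize_gtOne, realize_g3, b1, b2, b3]
      · exact mul_assoc _ _ _
      · exact one_mul _
      · exact inv_mul_cancel _
    · intro a
      by_cases ha : a = 1
      · left; rw [ha, b3]
      · right
        obtain ⟨N, hN, hfin, haN⟩ := hrf a ha
        obtain ⟨n, ⟨ε⟩⟩ := Finite.exists_equiv_fin (M ⧸ N)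
        refine ⟨⟨n, ⟨(fun _ s t => ε (ε.symm s * ε.symm t),
          fun b => if b then ε (a : M ⧸ N) else ε ((1 : M) : M ⧸ N)), ?_⟩⟩,
          fun x => ε (x : M ⧸ N), ?_, ?_, ?_⟩
        · simp only [if_true, Bool.false_eq_true, if_false, ne_eq, ε.injective.eq_iff]
          intro h
          rw [QuotientGroup.eq] at h
          apply haN
          have := N.inv_mem h
          simpa using this
        · intro x y
          rw [b1]
          simp only [Equiv.symm_apply_apply]
          rfl
        · rfl
        · rw [b3]; rfl
end

end Q309.Inf
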