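import Mathlib
import Pool.Agent.Q309.Inf.Logic

/-!
Residual finiteness of rings in infinitary logic.
-/

namespace Q309.Inf

open FirstOrder

universe u

/-- The function symbols of the signature `{+, -, ·, 0}`. -/
inductive RingSym : ℕ → Type
  | add : RingSym 2
  | neg : RingSym 1
  | mul : RingSym 2
  | zero : RingSym 0

/-- The signature `{+, -, ·, 0}` of rings. -/
def ringSig : FirstOrder.Language.{0, 0} := ⟨RingSym, fun _ => Empty⟩

/-- `M` with its operations is a residually finite (associative, not necessarily unital) ring. -/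
def IsResiduallyFiniteRing (M : Type u) [ringSig.Structure M] : Prop :=
  ∃ _ : NonUnitalRing M,
    (∀ x y : M, FirstOrder.Language.Structure.funMap (L := ringSig) RingSym.add ![x, y] = x + y) ∧
    (∀ x : M, FirstOrder.Language.Structure.funMap (L := ringSig) RingSym.neg ![x] = -x) ∧
    (∀ x y : M, FirstOrder.Language.Structure.funMap (L := ringSig) RingSym.mul ![x, y] = x * y) ∧
    FirstOrder.Language.Structure.funMap (L := ringSig) (M := M) RingSym.zero ![] = 0 ∧
    ∀ a : M, a ≠ 0 → ∃ I : AddSubgroup M, (∀ x ∈ I, ∀ r : M, r * x ∈ I ∧ x * r ∈ I) ∧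
      Finite (M ⧸ I) ∧ a ∉ I

/-- the term `s + t` -/
def tAdd {V : Type} (s t : ringSig.Term V) : ringSig.Term V :=
  FirstOrder.Language.Functions.apply₂ (L := ringSig) RingSym.add s t
/-- the term `s * t` -/
def tMul {V : Type} (s t : ringSig.Term V) : ringSig.Term V :=
  FirstOrder.Language.Functions.apply₂ (L := ringSig) RingSym.mul s t
/-- the term `- t` -/
def tNeg {V : Type} (t : ringSig.Term V) : ringSig.Term V :=
  FirstOrder.Language.Functions.apply₁ (L := ringSig) RingSym.neg t
/-- the term `0` -/
def tZero {V : Type} : ringSig.Term V :=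
  FirstOrder.Language.Constants.term (L := ringSig) RingSym.zero

/-- the operations of a structure -/
def rAdd {M : Type u} [ringSig.Structure M] (x y : M) : M :=
  FirstOrder.Language.Structure.funMap (L := ringSig) RingSym.add ![x, y]
/-- multiplication of a structure -/
def rMul {M : Type u} [ringSig.Structure M] (x y : M) : M :=
  FirstOrder.Language.Structure.funMap (L := ringSig) RingSym.mul ![x, y]
/-- negation of a structure -/
def rNeg {M : Type u} [ringSig.Structure M] (x : M) : M :=
  FirstOrder.Language.Structure.funMap (L := ringSig) RingSym.neg ![x]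
/-- zero of a structure -/
def rZero (M : Type u) [ringSig.Structure M] : M :=
  FirstOrder.Language.Structure.funMap (L := ringSig) RingSym.zero ![]

section
variable {M : Type u} [ringSig.Structure M] {V : Type} (v : V → M)

theorem realize_tAdd (s t : ringSig.Term V) :
    (tAdd s t).realize v = rAdd (s.realize v) (t.realize v) :=
  FirstOrder.Language.Term.realize_functions_apply₂
theorem realize_tMul (s t : ringSig.Term V) :
    (tMul s t).realize v = rMul (s.realize v) (t.realize v) :=
  FirstOrder.Language.Term.realize_functions_apply₂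
theorem realize_tNeg (t : ringSig.Term V) :
    (tNeg t).realize v = rNeg (t.realize v) :=
  FirstOrder.Language.Term.realize_functions_apply₁
theorem realize_tZero : (tZero : ringSig.Term V).realize v = rZero M := by
  show FirstOrder.Language.Structure.funMap (L := ringSig) RingSym.zero _ =
    FirstOrder.Language.Structure.funMap (L := ringSig) RingSym.zero _
  congr 1
  funext i
  exact i.elim0
end

/-- universally quantified variables -/
def x3 (i : Fin 3) : ringSig.Term (Empty ⊕ Fin 3) := .var (.inr i)

/-- `∀ x y z, s = t` -/
def ax (s t : ringSig.Term (Empty ⊕ Fin 3)) : Sentence ringSig := .all (Fin 3) (.eq s t)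

/-- The ring axioms. -/
def ringAxioms : Fin 8 → Sentence ringSig := ![
  ax (tAdd (tAdd (x3 0) (x3 1)) (x3 2)) (tAdd (x3 0) (tAdd (x3 1) (x3 2))),
  ax (tAdd (x3 0) (x3 1)) (tAdd (x3 1) (x3 0)),
  ax (tAdd tZero (x3 0)) (x3 0),
  ax (tAdd (tNeg (x3 0)) (x3 0)) tZero,
  ax (tMul (tMul (x3 0) (x3 1)) (x3 2)) (tMul (x3 0) (tMul (x3 1) (x3 2))),
  ax (tMul (x3 0) (tAdd (x3 1) (x3 2))) (tAdd (tMul (x3 0) (x3 1)) (tMul (x3 0) (x3 2))),
  ax (tMul (tAdd (x3 0) (x3 1)) (x3 2)) (tAdd (tMul (x3 0) (x3 2)) (tMul (x3 1) (x3 2))),
  ax tZero tZero]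

/-- The data of a finite structure with two operations and two distinct points. -/
def FinData : Type :=
  Σ n : ℕ, {q : (Bool → Fin n → Fin n → Fin n) × (Bool → Fin n) // q.2 true ≠ q.2 false}

instance : Countable FinData := by unfold FinData; infer_instance

/-- the two binary operations -/
def ringOps (b : Bool) : ringSig.Functions 2 := if b then RingSym.add else RingSym.mul

/-- the point `a` and the point `0` -/
def ringPts (b : Bool) : ringSig.Term (Empty ⊕ Unit) := if b then .var (.inr ()) else tZero

/-- `∀ a, a = 0 ∨ ⋁_F (some map to the finite structure F separates a from 0)` -/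
def rfPart : Sentence ringSig :=
  .all Unit (.disj (Option FinData) fun o => match o with
    | none => .eq (.var (.inr ())) tZero
    | some F => homFml ringOps F.2.1.1 ringPts F.2.1.2)

/-- The sentence axiomatizing residually finite rings. -/
def ringSentence : Sentence ringSig := (Fml.conj (Fin 8) ringAxioms).and rfPart

theorem ringSentence_isCountable : ringSentence.IsCountable := by
  refine Fml.and_isCountable ⟨inferInstance, fun i => ?_⟩ ⟨inferInstance, inferInstance, ?_⟩
  · fin_cases i <;> exact ⟨inferInstance, trivial⟩
  · rintro (_ | F)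
    · exact trivial
    · exact homFml_isCountable _ _ _ _

section
variable {M : Type u} [ringSig.Structure M]

theorem sat_ax (s t : ringSig.Term (Empty ⊕ Fin 3)) :
    (ax s t).Sat M Empty.elim ↔ ∀ w : Fin 3 → M,
      s.realize (Sum.elim Empty.elim w) = t.realize (Sum.elim Empty.elim w) := Iff.rfl

theorem realize_x3 (i : Fin 3) (w : Fin 3 → M) :
    (x3 i).realize (Sum.elim Empty.elim w) = w i := rfl

theorem sat_rfPart : rfPart.Sat M Empty.elim ↔ ∀ a : M, a = rZero M ∨ ∃ F : FinData,
    ∃ φ : M → Fin F.1, (∀ x y, φ (rAdd x y) = F.2.1.1 true (φ x) (φ y)) ∧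
      (∀ x y, φ (rMul x y) = F.2.1.1 false (φ x) (φ y)) ∧ φ a = F.2.1.2 true ∧
      φ (rZero M) = F.2.1.2 false := by
  constructor
  · intro h a
    obtain ⟨o, ho⟩ := h (fun _ => a)
    cases o with
    | none =>
      left
      have : a = (tZero : ringSig.Term (Empty ⊕ Unit)).realize
        (Sum.elim Empty.elim (fun _ => a)) := ho
      rwa [realize_tZero] at this
    | some F =>
      right
      refine ⟨F, ?_⟩
      have h1 := (sat_homFml (M := M) ringOps F.2.1.1 ringPts F.2.1.2
        (Sum.elim Empty.elim (fun _ => a))).1 ho
      obtain ⟨φ, h2, h3⟩ := h1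
      refine ⟨φ, fun x y => h2 true x y, fun x y => h2 false x y, h3 true, ?_⟩
      have h4 := h3 false
      have h5 : (ringPts false).realize (Sum.elim Empty.elim (fun _ => a)) = rZero M :=
        realize_tZero _
      rwa [h5] at h4
  · intro h w
    have hw : w = fun _ => w () := by funext u; rfl
    rcases h (w ()) with h1 | ⟨F, φ, h1, h2, h3, h4⟩
    · refine ⟨none, ?_⟩
      show w () = (tZero : ringSig.Term (Empty ⊕ Unit)).realize _
      rw [realize_tZero]
      exact h1
    · refine ⟨some F, ?_⟩
      refine (sat_homFml (M := M) ringOps F.2.1.1 ringPts F.2.1.2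
        (Sum.elim Empty.elim w)).2 ⟨φ, ?_, ?_⟩
      · intro b x y
        cases b
        · exact h2 x y
        · exact h1 x y
      · intro p
        cases p
        · have h5 : (ringPts false).realize (Sum.elim Empty.elim w) = rZero M :=
            realize_tZero _
          rw [h5]
          exact h4
        · exact h3

/-- The sentence axiomatizes the residually finite rings. -/
theorem models_ringSentence : Models M ringSentence ↔ IsResiduallyFiniteRing M := by
  unfold Models ringSentence
  rw [Fml.sat_and, sat_rfPart]
  constructor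
  · rintro ⟨hax, hrf⟩
    have h0 := (sat_ax _ _).1 (hax 0)
    have h1 := (sat_ax _ _).1 (hax 1)
    have h2 := (sat_ax _ _).1 (hax 2)
    have h3 := (sat_ax _ _).1 (hax 3)
    have h4 := (sat_ax _ _).1 (hax 4)
    have h5 := (sat_ax _ _).1 (hax 5)
    have h6 := (sat_ax _ _).1 (hax 6)
    simp only [realize_tAdd, realize_tMul, realize_tNeg, realize_tZero, realize_x3]
      at h0 h1 h2 h3 h4 h5 h6
    have a0 : ∀ x y z : M, rAdd (rAdd x y) z = rAdd x (rAdd y z) := fun x y z => h0 ![x, y, z]
    have a1 : ∀ x y : M, rAdd x y = rAdd y x := fun x y => h1 ![x, y, x]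
    have a2 : ∀ x : M, rAdd (rZero M) x = x := fun x => h2 ![x, x, x]
    have a3 : ∀ x : M, rAdd (rNeg x) x = rZero M := fun x => h3 ![x, x, x]
    have a4 : ∀ x y z : M, rMul (rMul x y) z = rMul x (rMul y z) := fun x y z => h4 ![x, y, z]
    have a5 : ∀ x y z : M, rMul x (rAdd y z) = rAdd (rMul x y) (rMul x z) :=
      fun x y z => h5 ![x, y, z]
    have a6 : ∀ x y z : M, rMul (rAdd x y) z = rAdd (rMul x z) (rMul y z) :=
      fun x y z => h6 ![x, y, z]
    let i1 : Add M := ⟨rAdd⟩
    let i2 : Zero M := ⟨rZero M⟩
    let i3 : Neg M := ⟨rNeg⟩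
    let iA : AddCommGroup M :=
      { add := rAdd
        add_assoc := a0
        zero := rZero M
        zero_add := a2
        add_zero := fun x => (a1 x (rZero M)).trans (a2 x)
        nsmul := nsmulRec
        neg := rNeg
        zsmul := zsmulRec
        neg_add_cancel := a3
        add_comm := a1 }
    have m0 : ∀ x : M, rMul (rZero M) x = rZero M := by
      intro x
      have h : rMul (rZero M) x = rMul (rZero M) x + rMul (rZero M) x := by
        conv_lhs => rw [← a2 (rZero M)]
        exact a6 _ _ _
      exact left_eq_add.1 h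
    have m1 : ∀ x : M, rMul x (rZero M) = rZero M := by
      intro x
      have h : rMul x (rZero M) = rMul x (rZero M) + rMul x (rZero M) := by
        conv_lhs => rw [← a2 (rZero M)]
        exact a5 _ _ _
      exact left_eq_add.1 h
    let iR : NonUnitalRing M :=
      { iA with
        mul := rMul
        left_distrib := a5
        right_distrib := a6
        zero_mul := m0
        mul_zero := m1
        mul_assoc := a4 }
    refine ⟨iR, fun x y => rfl, fun x => rfl, fun x y => rfl, rfl, ?_⟩
    intro a ha
    rcases hrf a with h | ⟨F, φ, g1, g2, g3, g4⟩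
    · exact absurd h ha
    · have k1 : ∀ x y : M, φ (x + y) = F.2.1.1 true (φ x) (φ y) := g1
      have k2 : ∀ x y : M, φ (x * y) = F.2.1.1 false (φ x) (φ y) := g2
      have k4 : φ (0 : M) = F.2.1.2 false := g4
      have kadd : ∀ x y x' y' : M, φ x = φ x' → φ y = φ y' → φ (x + y) = φ (x' + y') := by
        intro x y x' y' e1 e2
        rw [k1, k1, e1, e2]
      have kmul : ∀ x y x' y' : M, φ x = φ x' → φ y = φ y' → φ (x * y) = φ (x' * y') := by
        intro x y x' y' e1 e2
        rw [k2, k2, e1, e2]
      let I : AddSubgroup M :=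
        { carrier := {x | φ x = φ 0}
          add_mem' := by
            intro x y hx hy
            show φ (x + y) = φ 0
            rw [kadd x y 0 0 hx hy, add_zero]
          zero_mem' := rfl
          neg_mem' := by
            intro x hx
            show φ (-x) = φ 0
            have e : φ (0 + -x) = φ (x + -x) := kadd 0 (-x) x (-x) (Eq.symm hx) rfl
            rwa [zero_add, add_neg_cancel] at e }
      refine ⟨I, ?_, ?_, ?_⟩
      · intro x hx r
        have hx' : φ x = φ 0 := hx
        constructor
        · show φ (r * x) = φ 0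
          rw [kmul r x r 0 rfl hx', mul_zero]
        · show φ (x * r) = φ 0
          rw [kmul x r 0 r hx' rfl, zero_mul]
      · have hinj : Function.Injective (fun q : M ⧸ I => φ q.out) := by
          intro q q' h
          have h' : φ q.out = φ q'.out := h
          rw [← QuotientAddGroup.out_eq' q, ← QuotientAddGroup.out_eq' q']
          rw [QuotientAddGroup.eq]
          show φ (-q.out + q'.out) = φ 0
          rw [← kadd (-q.out) q.out (-q.out) q'.out rfl h', neg_add_cancel]
        exact Finite.of_injective _ hinj
      · intro haI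
        have : φ a = φ 0 := haI
        rw [g3, k4] at this
        exact F.2.2 this
  · rintro ⟨iR, e1, e2, e3, e4, hrf⟩
    have b1 : ∀ x y : M, rAdd x y = x + y := e1
    have b2 : ∀ x : M, rNeg x = -x := e2
    have b3 : ∀ x y : M, rMul x y = x * y := e3
    have b4 : rZero M = 0 := e4
    constructor
    · intro i
      fin_cases i
      all_goals
        refine (sat_ax _ _).2 fun w => ?_
        simp only [realize_tAdd, realize_tMul, realize_tNeg, realize_tZero, realize_x3,
          b1, b2, b3, b4]
      · exact add_assoc _ _ _
      · exact add_comm _ _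
      · exact zero_add _
      · exact neg_add_cancel _
      · exact mul_assoc _ _ _
      · exact mul_add _ _ _
      · exact add_mul _ _ _
    · intro a
      by_cases ha : a = 0
      · left; rw [ha, b4]
      · right
        obtain ⟨I, hI, hfin, haI⟩ := hrf a ha
        obtain ⟨n, ⟨ε⟩⟩ := Finite.exists_equiv_fin (M ⧸ I)
        have hadd : ∀ x y : M, ((x + y : M) : M ⧸ I) = (x : M ⧸ I) + (y : M ⧸ I) :=
          fun x y => rfl
        have hmul : ∀ x y x' y' : M, (x : M ⧸ I) = (x' : M ⧸ I) → (y : M ⧸ I) = (y' : M ⧸ I) →
            ((x * y : M) : M ⧸ I) = ((x' * y' : M) : M ⧸ I) := by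
          intro x y x' y' h1 h2
          rw [QuotientAddGroup.eq] at h1 h2 ⊢
          have : -(x * y) + x' * y' = (-x + x') * y + x' * (-y + y') := by
            noncomm_ring
          rw [this]
          exact I.add_mem (hI _ h1 _).2 (hI _ h2 _).1
        refine ⟨⟨n, ⟨(fun b s t => if b then ε (ε.symm s + ε.symm t) else
          ε (((ε.symm s).out * (ε.symm t).out : M) : M ⧸ I),
          fun b => if b then ε (a : M ⧸ I) else ε ((0 : M) : M ⧸ I)), ?_⟩⟩,
          fun x => ε (x : M ⧸ I), ?_, ?_, ?_, ?_⟩
        · simp only [if_true, Bool.false_eq_true, if_false, ne_eq, ε.injective.eq_iff]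
          intro h
          rw [QuotientAddGroup.eq] at h
          apply haI
          have := I.neg_mem h
          simpa using this
        · intro x y
          rw [b1]
          simp only [if_true, Equiv.symm_apply_apply]
          rw [hadd]
        · intro x y
          rw [b3]
          simp only [Bool.false_eq_true, if_false, Equiv.symm_apply_apply]
          congr 1
          exact hmul _ _ _ _ (QuotientAddGroup.out_eq' _).symm (QuotientAddGroup.out_eq' _).symm
        · rfl
        · rw [b4]; rfl
end

end Q309.Inf
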